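import Pool.Agent.V8H65.K2.Alg
import Pool.Agent.V8H65.K2.Simp
set_option autoImplicit false

/-!
Beilinson's conjecture for `K_2` of curves of genus one over totally real cubic fields: for *every*
totally real cubic field `K` and *every* solution of the unit equation `ε_0 + ε_1 + ε_2 = 0` in units
of `K`, the curve `(1 - y²) (1 - ε_0 x) (1 - ε_1 x) (1 - ε_2 x) = 1` of genus one has three
(`3 = g [K : ℚ]`) unramified symbols whose regulators on loops over the three real places have nonzero
determinant. This applies to all the simplest cubic fields.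
-/

namespace Pool.Agent.Results.MP_0a9c3b_nt.CubicUnitEquation

open NumberField

open Pool.Agent.TH826.MK (Torus symb)

open Pool.Agent.TH826.MH (eqn)

open Pool.Agent.TH265.V (Crv Opn sym cst0 lm rts SmoothOff UnramifiedSymbols)

open Pool.Agent.V8H65.K2 (al cub crv quartic SF rho)

universe u v

/-- Let `ε_0, ε_1, ε_2` be elements of the field `K` with the three embeddings `s_0, s_1, s_2` into `ℝ`,
`P(x) = (1 - ε_0 x) (1 - ε_1 x) (1 - ε_2 x)` (`cub ε`), and consider the curve `(1 - y²) P(x) = 1`
(`crv ε`), with the symbols `{(y - 1) / (y + 1), (x - 1/ε_m) / x}`, `m = 0, 1, 2`, in `K_2` of its open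
part `x ≠ 0`. -/
structure FullRank {K : Type u} [Field K] (ε : Fin 3 → K) (s : Fin 3 → (K →+* ℝ)) : Prop where
  /-- `Crv 1 (-1) (al ε)` is the coordinate ring of the plane curve `(1 - y²) P(x) = 1` -/
  equation : eqn (lm (al ε)) (rts 1 (-1) (al ε)) = crv ε
  /-- this ring is a domain -/
  isDomain : IsDomain (Crv 1 (-1) (al ε))
  /-- the curve is smooth at all complex points with `x ≠ 0` -/
  smooth : ∀ ρ : K →+* ℂ, SmoothOff (crv ε) ρ
  /-- `(y P)² - x² Q(x)` is a multiple of the equation of the curve, that is, `W = y P / x` satisfies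
  `W² = Q(x)` with the polynomial `Q` (`quartic ε`) -/
  quartic_eq : (MvPolynomial.X 0 * cub ε) ^ 2 - MvPolynomial.X 1 ^ 2 *
      (quartic ε).aeval (MvPolynomial.X 1 : MvPolynomial (Fin (1 + 1)) K) = -(cub ε) * crv ε
  /-- `Q` is a separable polynomial -/
  separable : (quartic ε).Separable
  /-- of degree four (so the genus is one) -/
  natDegree : (quartic ε).natDegree = 4
  /-- the symbols are unramified at all discrete valuations of the function field -/
  unramified : UnramifiedSymbols.{u, v} 1 (-1) (al ε)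
  /-- there is a loop in the complex points of the open part over each of the three places, such that
  the determinant of the regulators of the three symbols on the three loops does not vanish -/
  independent : ∃ Γ : Fin 3 → Torus (Opn 1 (-1) (al ε)) 1,
    (∀ l θ x, (Γ l).e θ (cst0 1 (-1) (al ε) x) = (s l x : ℝ)) ∧
    (Matrix.of fun l m : Fin 3 => (Γ l).reg (symb (sym 1 (-1) (al ε) (m, 0)))).det ≠ 0

theorem full {K : Type u} [Field K] [NumberField K] (hK : Module.finrank ℚ K = 3)
    {s : Fin 3 → (K →+* ℝ)} (hs : Function.Injective s) (ε : Fin 3 → (𝓞 K)ˣ)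
    (hsum : ∑ m, (ε m : K) = 0) : FullRank.{u, v} (fun m => (ε m : K)) s := by
  have hε : ∀ m, (ε m : K) ≠ 0 := fun m => NumberField.Units.coe_ne_zero (ε m)
  have hinj : Function.Injective fun m => (ε m : K) := by
    intro m m' h
    by_contra hne
    exact Pool.Agent.V8H65.K2.units_ne hK hs ε hsum hne h
  obtain ⟨Γ, hΓ, hdet⟩ := Pool.Agent.V8H65.K2.exists_det hK hs ε hsum
  have hi : ∀ m, IsIntegral ℤ (ε m : K) := fun m => RingOfIntegers.isIntegral_coe _
  have hi' : ∀ m, IsIntegral ℤ (ε m : K)⁻¹ := by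
    intro m
    have hinv : (((ε m)⁻¹ : (𝓞 K)ˣ) : K) = (ε m : K)⁻¹ := by
      refine eq_inv_of_mul_eq_one_left ?_
      rw [← map_mul, ← Units.val_mul, inv_mul_cancel, Units.val_one, map_one]
    rw [← hinv]
    exact RingOfIntegers.isIntegral_coe _
  have hsep := Pool.Agent.V8H65.K2.quartic_separable (s 0) hε hsum hinj
  exact
    { equation := Pool.Agent.V8H65.K2.eqn_crv hε
      isDomain := Pool.Agent.V8H65.K2.isDomain_crv hε hinj
      smooth := fun ρ => Pool.Agent.V8H65.K2.smoothOff_crv (s 0) hε hsum ρ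
      quartic_eq := Pool.Agent.V8H65.K2.quartic_eq _ hsum
      separable := hsep.1
      natDegree := hsep.2
      unramified := Pool.Agent.V8H65.K2.unramified_crv hε hi hi' hinj
        (Pool.Agent.TH265.V.fX_ne_zero_of_torus 1 (-1) (Γ 0))
      independent := ⟨Γ, hΓ, hdet⟩ }

/-- (1) Let `K` be a totally real cubic field with the embeddings `s_0, s_1, s_2` into `ℝ`, and let
`ε_0, ε_1, ε_2` be units of `K` with `ε_0 + ε_1 + ε_2 = 0`. Then all the assertions of `FullRank` hold.

(2) For every integer `a` the field `SF a = ℚ(ρ)`, `ρ³ = a ρ² + (a + 3) ρ + 1`, is a totally real cubic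
field, and the assertions of `FullRank` hold for `1, ρ, -1 - ρ`. -/
theorem result :
    (∀ (K : Type u) [Field K] [NumberField K], Module.finrank ℚ K = 3 →
      ∀ s : Fin 3 → (K →+* ℝ), Function.Injective s →
      ∀ ε : Fin 3 → (𝓞 K)ˣ, ∑ m, (ε m : K) = 0 → FullRank.{u, v} (fun m => (ε m : K)) s) ∧
    ∀ a : ℤ, Module.finrank ℚ (SF a) = 3 ∧
      rho a ^ 3 = (a : SF a) * rho a ^ 2 + ((a : SF a) + 3) * rho a + 1 ∧
      (∃ s : Fin 3 → (SF a →+* ℝ), Function.Injective s) ∧
      ∀ s : Fin 3 → (SF a →+* ℝ), Function.Injective s →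
        FullRank.{0, v} ![1, rho a, -1 - rho a] s := by
  have main : ∀ (K : Type u) [Field K] [NumberField K], Module.finrank ℚ K = 3 →
      ∀ s : Fin 3 → (K →+* ℝ), Function.Injective s →
      ∀ ε : Fin 3 → (𝓞 K)ˣ, ∑ m, (ε m : K) = 0 → FullRank.{u, v} (fun m => (ε m : K)) s := by
    intro K _ _ hK s hs ε hsum
    exact full.{u, v} hK hs ε hsum
  refine ⟨main, fun a => ⟨Pool.Agent.V8H65.K2.finrank_SF a, ?_,
    Pool.Agent.V8H65.K2.exists_embeddings a, fun s hs => ?_⟩⟩
  · linear_combination Pool.Agent.V8H65.K2.rho_eq a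
  · obtain ⟨ε, h0, h1, h2⟩ := Pool.Agent.V8H65.K2.exists_units a
    have he : (fun m => (ε m : SF a)) = ![1, rho a, -1 - rho a] := by
      funext m
      fin_cases m
      · exact h0
      · exact h1
      · exact h2
    rw [← he]
    refine full.{0, v} (Pool.Agent.V8H65.K2.finrank_SF a) hs ε ?_
    rw [Fin.sum_univ_three, h0, h1, h2]
    ring

end Pool.Agent.Results.MP_0a9c3b_nt.CubicUnitEquation
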