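import Pool.Agent.V8H65.K4.Alg
set_option autoImplicit false

/-!
Beilinson's conjecture for `K_2` of curves of genus two over real quadratic fields: for *every* real
quadratic field `K` and *every* unit `e ≠ ± 1` of `K`, the curve `(1 - y²) (1 - x²) (1 - (x/e)²) = 1`,
that is, `W² = (x² - 1) (x² - e²) (x² - 1 - e²)`, has four (`4 = g [K : ℚ]`) unramified symbols whose
regulators on four loops, two over each real place, have nonzero determinant.
-/

namespace Pool.Agent.Results.MP_0a9c3b_nt.GenusTwoEveryUnit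

open NumberField

open Pool.Agent.TH826.MH (eqn)

open Pool.Agent.TH265.V

open Pool.Agent.V8H65.K4 (quart sextic)

universe u v

/-- Let `e` be an element of the field `K` with the embeddings `σ`, `τ` into `ℝ`,
`P(x) = (1 - x²) (1 - (x/e)²)` (`quart e`), and consider the curve `(1 - y²) P(x) = 1` (`poly 1 1 e`),
with the four symbols `{(y - 1) / (y + 1), (x - a) / x}`, `a ∈ {1, -1, e, -e}`, in `K_2` of its open
part `x ≠ 0`. -/
structure FullRank {K : Type u} [Field K] (e : K) (σ τ : K →+* ℝ) : Prop where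
  /-- `Crv 1 (-1) (al 1 (-1) e)` is the coordinate ring of the plane curve `(1 - y²) P(x) = 1` -/
  equation : eqn (lm (al 1 (-1) e)) (rts 1 (-1) (al 1 (-1) e)) = poly 1 1 e
  /-- this ring is a domain -/
  isDomain : IsDomain (Crv 1 (-1) (al 1 (-1) e))
  /-- the curve is smooth at all complex points with `x ≠ 0` -/
  smooth : ∀ ρ : K →+* ℂ, SmoothOff (poly 1 1 e) ρ
  /-- `(e² y P)² - x² S(x)` is a multiple of the equation of the curve, that is, `W = e² y P / x`
  satisfies `W² = S(x)` with the polynomial `S = (x² - 1) (x² - e²) (x² - 1 - e²)` (`sextic e`) -/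
  sextic_eq : (MvPolynomial.C (e ^ 2) * MvPolynomial.X 0 * quart e) ^ 2 - MvPolynomial.X 1 ^ 2 *
      (sextic e).aeval (MvPolynomial.X 1 : MvPolynomial (Fin (1 + 1)) K) =
      -(MvPolynomial.C (e ^ 4) * quart e) * poly 1 1 e
  /-- `S` is a separable polynomial -/
  separable : (sextic e).Separable
  /-- of degree six (so the genus is two) -/
  natDegree : (sextic e).natDegree = 6
  /-- the symbols are unramified at all discrete valuations of the function field -/
  unramified : UnramifiedSymbols.{u, v} 1 (-1) (al 1 (-1) e)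
  /-- there are two loops over `τ` and two loops over `σ` in the complex points of the open part, such
  that the determinant of the regulators of the four symbols on the four loops does not vanish -/
  independent : IndependentRegulators 1 (-1) (al 1 (-1) e)
    (pls 1 (Complex.ofRealHom.comp σ) (Complex.ofRealHom.comp τ))

theorem full {K : Type u} [Field K] [NumberField K] (σ τ : K →+* ℝ) {e : K} (hi : IsIntegral ℤ e)
    (hi' : IsIntegral ℤ e⁻¹) (h1 : 1 < |σ e|) (h2 : |τ e| < 1) : FullRank.{u, v} e σ τ := by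
  have he0 : e ≠ 0 := by
    rintro rfl
    rw [map_zero, abs_zero] at h1
    linarith
  have hs : (σ e) ^ 2 ≠ 1 := by
    rw [← sq_abs]
    nlinarith
  have he1 : e ^ 2 ≠ 1 := by
    intro h
    apply hs
    rw [← map_pow, h, map_one]
  have he2 : e ^ 2 ≠ -1 := by
    intro h
    have h3 := congrArg σ h
    rw [map_pow, map_neg, map_one] at h3
    nlinarith [sq_nonneg (σ e)]
  have hind := Pool.Agent.V8H65.K4.independent σ τ h1 he0 h2
  have hsep := Pool.Agent.V8H65.K4.sextic_separable he0 he1 he2
  obtain ⟨Γ, -, -⟩ := id hind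
  exact
    { equation := eqn_al Pool.Agent.V8H65.K2.prim2 Pool.Agent.V8H65.K2.prim2 he0
      isDomain := Pool.Agent.V8H65.K4.isDomain_crv σ h1
      smooth := fun ρ => smoothOff he2 ρ
      sextic_eq := Pool.Agent.V8H65.K4.sextic_eq he0
      separable := hsep.1
      natDegree := hsep.2
      unramified := Pool.Agent.V8H65.K4.unramified_crv σ h1 hi hi'
        (fX_ne_zero_of_torus 1 (-1) (Γ (0, 0)))
      independent := hind }

/-- (1) Let `K` be a real quadratic field with the two embeddings `s₁`, `s₂` into `ℝ`, and let `e` be a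
unit of `K` with `e ≠ ± 1`. Then all the assertions of `FullRank` hold for `e` and the places `s₁`,
`s₂`, in one of the two orders.

(2) More generally, let `K` be a number field with embeddings `σ`, `τ` into `ℝ` and let `e` be a unit of
the ring of integers of `K` with `|σ e| > 1 > |τ e|`. Then all the assertions of `FullRank` hold. -/
theorem result (K : Type u) [Field K] [NumberField K] :
    (Module.finrank ℚ K = 2 → ∀ s₁ s₂ : K →+* ℝ, s₁ ≠ s₂ → ∀ e : (𝓞 K)ˣ, (e : K) ^ 2 ≠ 1 →
      FullRank.{u, v} (e : K) s₁ s₂ ∨ FullRank.{u, v} (e : K) s₂ s₁) ∧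
    ∀ (σ τ : K →+* ℝ) (e : (𝓞 K)ˣ), 1 < |σ (e : K)| → |τ (e : K)| < 1 →
      FullRank.{u, v} (e : K) σ τ := by
  have main : ∀ (σ τ : K →+* ℝ) (e : (𝓞 K)ˣ), 1 < |σ (e : K)| → |τ (e : K)| < 1 →
      FullRank.{u, v} (e : K) σ τ := by
    intro σ τ e h1 h2
    refine full σ τ (RingOfIntegers.isIntegral_coe _) ?_ h1 h2
    have hinv : ((e⁻¹ : (𝓞 K)ˣ) : K) = (e : K)⁻¹ := by
      refine eq_inv_of_mul_eq_one_left ?_
      rw [← map_mul, ← Units.val_mul, inv_mul_cancel, Units.val_one, map_one]
    rw [← hinv]
    exact RingOfIntegers.isIntegral_coe _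
  refine ⟨fun hK s₁ s₂ hs e he => ?_, main⟩
  have hmul := Pool.Agent.TH690.UE.mul_eq hK hs e
  have hpos : 0 < |s₁ (e : K)| :=
    abs_pos.2 ((map_ne_zero s₁).2 (NumberField.Units.coe_ne_zero e))
  have hpos' : 0 < |s₂ (e : K)| :=
    abs_pos.2 ((map_ne_zero s₂).2 (NumberField.Units.coe_ne_zero e))
  rcases lt_trichotomy |s₁ (e : K)| 1 with h | h | h
  · refine Or.inr (main s₂ s₁ e ?_ h)
    by_contra hcon
    push Not at hcon
    nlinarith
  · exfalso
    apply he
    have h3 : (s₁ (e : K)) ^ 2 = 1 := by rw [← sq_abs, h, one_pow]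
    apply s₁.injective
    rw [map_pow, h3, map_one]
  · refine Or.inl (main s₁ s₂ e h ?_)
    by_contra hcon
    push Not at hcon
    nlinarith

end Pool.Agent.Results.MP_0a9c3b_nt.GenusTwoEveryUnit
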