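import Pool.Agent.V8H93.KC.Reg

/-!
# Beilinson's conjecture on `K_2` for curves with automorphisms, and the quotient curves

Let a finite group `G` act on the curve `C` over `k`. Let `V` be the rational vector space
`H²_M(C, ℚ(2))_ℤ` (its dimension is not known to be finite), `W = Hom(H₁(C(ℂ), ℤ)⁻, ℝ)`, and
`r : V → W` the regulator. `G` acts on `V` and `W`, and `r` is equivariant. The first part of Q1 says
that `ℝ ⊗ V → W` is an isomorphism (so that `dim V = dim W = g [k : ℚ]`). For a subgroup `H` of `G` the
pullback along `C → C / H` identifies the objects of the quotient curve with `V^H` and `W^H`; so Q1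
for `C / H` says that `ℝ ⊗ V^H → W^H` is an isomorphism. The same formalism applies if `C = C₀ × k` and
`G = Gal(k / k₀)`; then the objects with the exponent `H` are those of `C₀` over the field `k^H`.

**Theorem.** Let `𝓗` be a set of subgroups of `G`.

(1) The equivalence [Q1 for `C` ⟺ Q1 for `C / H` for all `H ∈ 𝓗`] holds for all data `V`, `W`, `r` if
and only if every nonzero representation of `G` over `ℚ` has a nonzero vector fixed by some `H ∈ 𝓗`.

(2) It holds for the set of all `H` such that `N(H)/H` satisfies the condition `PQ`: every subgroup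
whose elements other than the identity have prime order is cyclic.

(3) If `G` does not satisfy `PQ` (for example if `G` contains a noncyclic group of order `p q`), then Q1
holds for `C` if and only if it holds for all the curves `C / H`, `H ≠ 1`.

(4) It holds for a single quotient `C / t`, `t` an involution, if and only if `t` belongs to the normal
subgroup generated by the elements `g t g⁻¹ t⁻¹`.

(5) If `G` is abelian, it holds if and only if every `K ≤ G` with cyclic `G / K` contains a member of
`𝓗`.
-/

set_option autoImplicit false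

namespace Pool.Agent.Results.MP_0a9c3b_nt.QuotientCurves

open Pool.Agent.V8H93.KC Pool.Agent.V8H93.QI

/-- Q1 for a curve with an action of `G` is equivalent to Q1 for its quotients by the members of `𝓗`,
for all equivariant regulator maps `r : V → W`. -/
def Descends (G : Type) [Group G] (𝓗 : Set (Subgroup G)) : Prop :=
  ∀ (V : Type) [AddCommGroup V] [Module ℚ V] (W : Type) [AddCommGroup W] [Module ℝ W]
    [Module ℚ W] [IsScalarTower ℚ ℝ W] (ρ : Representation ℚ G V) (σ : Representation ℝ G W)
    (r : V →ₗ[ℚ] W), (∀ g v, r (ρ g v) = σ g (r v)) →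
      (Function.Bijective (RR r) ↔ ∀ H ∈ 𝓗, Iso ρ σ r H)

theorem descends_iff (G : Type) [Group G] [Finite G] (𝓗 : Set (Subgroup G)) :
    Descends G 𝓗 ↔ HasFixed G 𝓗 := by
  constructor
  · intro h
    by_contra hG
    obtain ⟨V, _, _, ρ, σ, r, hr, h1, h2⟩ := sharp hG
    exact h2 ((h V PUnit ρ σ r hr).2 h1)
  · intro h V _ _ W _ _ _ _ ρ σ r hr
    exact main ρ σ r hr h

theorem pq_of_equiv {W W' : Type} [Group W] [Group W'] (e : W ≃* W') (h : PQ W) : PQ W' := by
  intro K hK
  have h1 := h (K.map (e.symm : W' →* W)) (by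
    rintro _ ⟨k, hk, rfl⟩ hne
    have h2 : orderOf ((e.symm : W' →* W) k) = orderOf k := MulEquiv.orderOf_eq e.symm k
    rw [h2]
    exact hK k hk (fun h => hne (by rw [h, map_one])))
  exact isCyclic_of_surjective (e.symm.subgroupMap K).symm (MulEquiv.surjective _)

theorem norm_bot {G : Type} [Group G] :
    Subgroup.normalizer ((⊥ : Subgroup G) : Set G) = ⊤ := by
  rw [eq_top_iff]
  intro g _
  rw [Subgroup.mem_normalizer_iff]
  intro h
  rw [Subgroup.mem_bot, Subgroup.mem_bot]
  constructor
  · rintro rfl
    group
  · intro h1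
    have h2 : g * h = g := by simpa using mul_inv_eq_one.1 h1
    simpa using h2

/-- `N(1) / 1 = G` -/
noncomputable def weylBot (G : Type) [Group G] : Weyl (⊥ : Subgroup G) ≃* G :=
  (QuotientGroup.quotientMulEquivOfEq (by
    ext x
    rw [Subgroup.mem_subgroupOf, Subgroup.mem_bot, Subgroup.mem_bot]
    exact ⟨fun h => Subtype.ext h, fun h => congrArg Subtype.val h⟩ :
      (⊥ : Subgroup G).subgroupOf (Subgroup.normalizer ((⊥ : Subgroup G) : Set G)) = ⊥)).trans
    (QuotientGroup.quotientBot.trans ((MulEquiv.subgroupCongr norm_bot).trans Subgroup.topEquiv))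

/-- **Q1 for a curve with automorphisms and Q1 for its quotient curves.** -/
theorem result (G : Type) [Group G] [Finite G] :
    (∀ 𝓗 : Set (Subgroup G), Descends G 𝓗 ↔ HasFixed G 𝓗) ∧
    Descends G {H | PQ (Weyl H)} ∧
    (¬ PQ G → Descends G {H | H ≠ ⊥}) ∧
    (∀ t : G, t * t = 1 → (Descends G {Subgroup.zpowers t} ↔ t ∈ CommWith t)) ∧
    ∀ (A : Type) [CommGroup A] [Finite A] (𝓗 : Set (Subgroup A)),
      Descends A 𝓗 ↔ ∀ K : Subgroup A, IsCyclic (A ⧸ K) → ∃ H ∈ 𝓗, H ≤ K := by
  refine ⟨descends_iff G, (descends_iff G _).2 (fixed_general G), fun hG => ?_,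
    fun t ht => (descends_iff G _).trans (involution_iff ht),
    fun A _ _ 𝓗 => (descends_iff A _).trans (abelian_iff A 𝓗)⟩
  refine (descends_iff G _).2 ((fixed_general G).mono ?_)
  rintro H hH rfl
  exact hG (pq_of_equiv (weylBot G) hH)

end Pool.Agent.Results.MP_0a9c3b_nt.QuotientCurves
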