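import Pool.Agent.V8H93.KC.Val
import Pool.Agent.V8H93.BR.Sharp

/-!
# Beilinson's conjecture on `K_2` of curves: `L`-values of curves with automorphisms

Let a finite group `G` act on the curve `C` over `k`. For `H ≤ G` let `R H` be the determinant of the
regulator of the quotient curve `C / H` for rational bases, and let `L H` be the value
`L^(m)(C / H, 0)`, `m = g(C / H) [k : ℚ]` (or the number `w N (2 π)^(- 2 m) L(C / H, 2)`). Q2 for `C / H`
says that `R H` and `L H` are equal up to a factor in `ℚ^*`. A relation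
`∑ ℚ[G / U_i] ≅ ∑ ℚ[G / U'_j]` between permutation modules gives isomorphisms between the sums of the
objects of the curves `C / U_i` and `C / U'_j`, hence a relation between the products of the numbers
`R` and of the numbers `L`, up to `ℚ^*`; this is the formalism `MulQ`, which we assume. It also
applies to a curve `C` over `k₀`, a Galois extension `k / k₀` with the group `G`, and the numbers `R U`,
`L U` of `C` over the field `k^U`.

**Theorem.** (1) If `N(H)/H` has a noncyclic subgroup of order `p q`, `p` and `q` primes (`p = q` is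
allowed), and Q2 holds for `C / H'` for all `H' > H`, then it holds for `C / H`. In particular, if `G`
has a noncyclic subgroup of order `p q` and Q2 holds for all `C / H`, `H ≠ 1`, then it holds for `C`.

(2) If Q2 holds for `C / H` for all `H` for which all subgroups of order `p q` of `N(H)/H` are cyclic,
then it holds for `C / H` for all `H`, in particular for `C`.

(3) If Q2 holds for `C` over `K` for all fields `k₀ ⊆ K ⊆ k` for which all subgroups of order `p q` of
`Aut(K/k₀)` are cyclic, then it holds for `C` over `K` for all `k₀ ⊆ K ⊆ k`; there is a version with one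
step, as in (1).
-/

set_option autoImplicit false

open scoped Classical

namespace Pool.Agent.Results.MP_0a9c3b_nt.ValuesOfQuotientCurves

open Pool.Agent.V8H93.KC Pool.Agent.V8H93.BR
open Pool.Agent.V8H93.QI (Weyl)

/-- **Q2 for curves with automorphisms, and for the base changes of a curve.** -/
theorem result :
    (∀ (G : Type) [Group G] [Fintype G] (R L : Subgroup G → ℂ), MulQ R → MulQ L →
      (∀ H, ¬ PQ2 (Weyl H) → (∀ H', H < H' → Eqv (R H') (L H')) → Eqv (R H) (L H)) ∧
      (¬ PQ2 G → (∀ H, H ≠ ⊥ → Eqv (R H) (L H)) → Eqv (R ⊥) (L ⊥)) ∧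
      ((∀ H : Subgroup G, PQ2 (Weyl H) → Eqv (R H) (L H)) → ∀ H, Eqv (R H) (L H))) ∧
    ∀ (k₀ k : Type) [Field k₀] [Field k] [Algebra k₀ k] [FiniteDimensional k₀ k] [IsGalois k₀ k]
      (R L : Subgroup (k ≃ₐ[k₀] k) → ℂ), MulQ R → MulQ L →
      (∀ U, ¬ PQ2 (IntermediateField.fixedField U ≃ₐ[k₀] IntermediateField.fixedField U) →
        (∀ U', U < U' → Eqv (R U') (L U')) → Eqv (R U) (L U)) ∧
      ((∀ U, PQ2 (IntermediateField.fixedField U ≃ₐ[k₀] IntermediateField.fixedField U) →
        Eqv (R U) (L U)) → ∀ U, Eqv (R U) (L U)) := by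
  have key : ∀ (G : Type) [Group G] [Fintype G] (R L : Subgroup G → ℂ), MulQ R → MulQ L →
      (∀ H, ¬ PQ2 (Weyl H) → (∀ H', H < H' → Eqv (R H') (L H')) → Eqv (R H) (L H)) ∧
      ((∀ H : Subgroup G, PQ2 (Weyl H) → Eqv (R H) (L H)) → ∀ H, Eqv (R H) (L H)) :=
    fun G _ _ R L hR hL => ⟨fun H hH hup => eqv_of_mem hR hL (P := fun H' => H < H') hup (step hH),
      fun hP H => eqv_of_mem hR hL (P := fun H => PQ2 (Weyl H)) hP (pc_mem_Ps H)⟩
  refine ⟨fun G _ _ R L hR hL => ⟨(key G R L hR hL).1, fun hG hup => ?_, (key G R L hR hL).2⟩,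
    fun k₀ k _ _ _ _ _ R L hR hL => ⟨fun U hU hup => ?_, fun hP => ?_⟩⟩
  · exact (key G R L hR hL).1 ⊥ (fun h => hG (h.of_equiv (weylBot G))) fun H' h => hup H' h.ne'
  · exact (key _ R L hR hL).1 U (fun h => hU ((pq2_iff U).1 h)) hup
  · exact (key _ R L hR hL).2 fun U h => hP U ((pq2_iff U).1 h)

end Pool.Agent.Results.MP_0a9c3b_nt.ValuesOfQuotientCurves
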